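import Pool.Agent.W92.Alg
import Pool.Agent.W92.Gal

set_option autoImplicit false

/-!
# MP_023059_nt: property (A) does not make the absolute Galois group procyclic

There is a field `K` of characteristic zero over which every `O`-acyclic variety has a rational
point, while no finite set generates the absolute Galois group `G_K` topologically.

The field is the union of a tower of countable subfields of `ℂ`, in each step a generic point of an
absolutely prime ideal is adjoined; no rational number becomes a square on the way.  The union
`K` has a point on every geometrically integral scheme of finite type over it.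
-/

open CategoryTheory AlgebraicGeometry TopologicalSpace Opposite Limits

namespace Pool.Agent.Results.MP_023059_nt.PacField

attribute [local instance] MvPolynomial.gradedAlgebra

/-- `f : X ⟶ Spec K` is projective: `X` is a closed subscheme of a projective space
`Pⁿ_K = Proj K[x_0, ..., x_n]` over `Spec K`. -/
def IsProjectiveOver {K : Type} [Field K] {X : Scheme.{0}} (f : X ⟶ Spec (CommRingCat.of K)) :
    Prop :=
  ∃ (n : ℕ) (i : X ⟶ Proj (MvPolynomial.homogeneousSubmodule (Fin (n + 1)) K)),
    IsClosedImmersion i ∧
    i ≫ (Proj.toSpecZero (MvPolynomial.homogeneousSubmodule (Fin (n + 1)) K) ≫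
      Spec.map (CommRingCat.ofHom
        (algebraMap K (MvPolynomial.homogeneousSubmodule (Fin (n + 1)) K 0)))) = f

/-- A variety over `K`: a smooth, projective, geometrically integral `K`-scheme. -/
def IsVarietyOver {K : Type} [Field K] {X : Scheme.{0}} (f : X ⟶ Spec (CommRingCat.of K)) : Prop :=
  Smooth f ∧ IsProjectiveOver f ∧ GeometricallyIntegral f

/-- The structure sheaf of `X` as a sheaf of abelian groups on the topological space of `X`. -/
noncomputable def structureSheafAb (X : Scheme.{0}) :
    Sheaf (Opens.grothendieckTopology X) AddCommGrpCat.{0} :=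
  (sheafCompose _ (forget₂ CommRingCat.{0} RingCat.{0} ⋙ forget₂ RingCat.{0} AddCommGrpCat.{0})).obj
    X.sheaf

/-- The dimension over `K` of `H⁰(X, O_X) = Γ(X, ⊤)`, for `f : X ⟶ Spec K`. -/
noncomputable def dimGlobalSections {K : Type} [Field K] {X : Scheme.{0}}
    (f : X ⟶ Spec (CommRingCat.of K)) : Cardinal :=
  letI : Algebra K Γ(X, ⊤) := ((Scheme.ΓSpecIso (CommRingCat.of K)).inv ≫ f.appTop).hom.toAlgebra
  Module.rank K Γ(X, ⊤)

/-- `X` is `O`-acyclic over `K`: `dim_K H⁰(X, O_X) = 1` and `Hⁱ(X, O_X) = 0` for all `i > 0`
(sheaf cohomology of the structure sheaf, `CategoryTheory.Sheaf.H`). -/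
def IsOAcyclic {K : Type} [Field K] {X : Scheme.{0}} (f : X ⟶ Spec (CommRingCat.of K)) : Prop :=
  dimGlobalSections f = 1 ∧ ∀ i : ℕ, 0 < i → Subsingleton (Sheaf.H (structureSheafAb X) i)

/-- Property (A): every `O`-acyclic variety over `K` has a `K`-rational point. -/
def PropertyA (K : Type) [Field K] : Prop :=
  ∀ (X : Scheme.{0}) (f : X ⟶ Spec (CommRingCat.of K)), IsVarietyOver f → IsOAcyclic f →
    ∃ s : Spec (CommRingCat.of K) ⟶ X, s ≫ f = 𝟙 _

/-- The absolute Galois group `G_K = Gal(K^s/K)` with the Krull topology is topologically generated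
by the set `S`. -/
def TopologicallyGenerates (K : Type) [Field K]
    (S : Set (SeparableClosure K ≃ₐ[K] SeparableClosure K)) : Prop :=
  (Subgroup.closure S).topologicalClosure = ⊤

/-- There is a field of characteristic zero with property (A) whose absolute Galois group is not
topologically generated by any finite set; in particular it is not procyclic. -/
theorem result : ∃ (K : Type) (_ : Field K), CharZero K ∧ PropertyA K ∧
    ∀ S : Set (SeparableClosure K ≃ₐ[K] SeparableClosure K), S.Finite →
      ¬ TopologicallyGenerates K S := by
  obtain ⟨K, hK1, hK2⟩ := Pool.Agent.W92.exists_pac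
  refine ⟨K, inferInstance, inferInstance, ?_, ?_⟩
  · intro X f hX _
    obtain ⟨hs, _, hg⟩ := hX
    have : LocallyOfFinitePresentation f := inferInstance
    exact Pool.Agent.W92.pac_scheme K hK2 X f
  · intro S hS h
    exact Pool.Agent.W92.not_fg K hK1 hS.toFinset (by rw [hS.coe_toFinset]; exact h)

end Pool.Agent.Results.MP_023059_nt.PacField
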